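import Pool.Agent.Run7.h148.AX.Stm3

/-!
Project AX (helper148), piece AVG: averaging a test field over the rotations.
-/

set_option autoImplicit false

open MeasureTheory Set Filter Topology
open scoped ENNReal ContDiff FourierTransform

namespace Pool.Agent.Run7.h837.AX

open Pool.Agent.Run7.h148.AX

/-- derivative of a parametric interval integral -/
theorem hfd {E G : Type} [NormedAddCommGroup E] [NormedSpace ℝ E] [FiniteDimensional ℝ E]
    [NormedAddCommGroup G] [NormedSpace ℝ G] [CompleteSpace G] (a b : ℝ) (F : E → ℝ → G)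
    (hF : ContDiff ℝ ∞ (Function.uncurry F)) (x0 : E) :
    HasFDerivAt (fun x => ∫ t in a..b, F x t)
      (∫ t in a..b, (fderiv ℝ (Function.uncurry F) (x0, t)).comp
        (ContinuousLinearMap.inl ℝ E ℝ)) x0 := by
  have hc : Continuous (Function.uncurry F) := hF.continuous
  have hd : Continuous (fun p : E × ℝ => (fderiv ℝ (Function.uncurry F) p).comp
      (ContinuousLinearMap.inl ℝ E ℝ)) := by
    have h1 : Continuous (fderiv ℝ (Function.uncurry F)) :=
      hF.continuous_fderiv (by simp)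
    exact h1.clm_comp continuous_const
  obtain ⟨C, hC⟩ := ((isCompact_closedBall x0 1).prod (isCompact_uIcc (a := a) (b := b))).exists_bound_of_continuousOn
    hd.continuousOn
  refine intervalIntegral.hasFDerivAt_integral_of_dominated_of_fderiv_le
    (F := F) (F' := fun x t => (fderiv ℝ (Function.uncurry F) (x, t)).comp
        (ContinuousLinearMap.inl ℝ E ℝ)) (bound := fun _ => C)
    (Metric.closedBall_mem_nhds x0 one_pos) ?_ ?_ ?_ ?_ ?_ ?_
  · exact Filter.Eventually.of_forall fun x =>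
      (hc.comp (Continuous.prodMk_right x)).aestronglyMeasurable
  · exact (hc.comp (Continuous.prodMk_right x0)).intervalIntegrable _ _
  · exact (hd.comp (Continuous.prodMk_right x0)).aestronglyMeasurable
  · refine Filter.Eventually.of_forall fun t ht x hx => ?_
    exact hC (x, t) ⟨hx, uIoc_subset_uIcc ht⟩
  · exact intervalIntegrable_const
  · refine Filter.Eventually.of_forall fun t _ x _ => ?_
    have h1 : HasFDerivAt (Function.uncurry F) (fderiv ℝ (Function.uncurry F) (x, t)) (x, t) :=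
      ((hF.differentiable (by simp)) (x, t)).hasFDerivAt
    have h2 : HasFDerivAt (fun y : E => (y, t)) (ContinuousLinearMap.inl ℝ E ℝ) x :=
      hasFDerivAt_prodMk_left x t
    exact h1.comp x h2

theorem cdn {E : Type} [NormedAddCommGroup E] [NormedSpace ℝ E] [FiniteDimensional ℝ E]
    (a b : ℝ) (n : ℕ) : ∀ (G : Type) [NormedAddCommGroup G] [NormedSpace ℝ G] [CompleteSpace G]
    (F : E → ℝ → G), ContDiff ℝ ∞ (Function.uncurry F) →
    ContDiff ℝ n (fun x => ∫ t in a..b, F x t) := by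
  induction n with
  | zero =>
    intro G _ _ _ F hF
    rw [Nat.cast_zero, contDiff_zero]
    exact intervalIntegral.continuous_parametric_intervalIntegral_of_continuous' hF.continuous a b
  | succ n ih =>
    intro G _ _ _ F hF
    have h1 := fun x0 => hfd a b F hF x0
    rw [Nat.cast_succ, contDiff_succ_iff_fderiv]
    refine ⟨fun x => (h1 x).differentiableAt, by simp, ?_⟩
    have h2 : fderiv ℝ (fun x => ∫ t in a..b, F x t) = fun x0 =>
        ∫ t in a..b, (fderiv ℝ (Function.uncurry F) (x0, t)).comp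
        (ContinuousLinearMap.inl ℝ E ℝ) := by
      funext x0; exact (h1 x0).fderiv
    rw [h2]
    refine ih (E →L[ℝ] G) (fun x0 t => (fderiv ℝ (Function.uncurry F) (x0, t)).comp
        (ContinuousLinearMap.inl ℝ E ℝ)) ?_
    have h3 : ContDiff ℝ ∞ (fderiv ℝ (Function.uncurry F)) :=
      hF.fderiv_right (m := ∞) (by simp)
    have h4 : ContDiff ℝ ∞ (fun p : E × ℝ => (fderiv ℝ (Function.uncurry F) p).comp
        (ContinuousLinearMap.inl ℝ E ℝ)) := h3.clm_comp contDiff_const
    exact h4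

theorem cdi {E : Type} [NormedAddCommGroup E] [NormedSpace ℝ E] [FiniteDimensional ℝ E]
    (a b : ℝ) (G : Type) [NormedAddCommGroup G] [NormedSpace ℝ G] [CompleteSpace G]
    (F : E → ℝ → G) (hF : ContDiff ℝ ∞ (Function.uncurry F)) :
    ContDiff ℝ ∞ (fun x => ∫ t in a..b, F x t) := by
  rw [contDiff_infty]
  intro n
  exact cdn a b n G F hF

/-- `rt θ` as a linear isometry equivalence -/
theorem rt_add (α β : ℝ) (x : E3) : rt α (rt β x) = rt (α + β) x := by
  ext i; fin_cases i <;> simp [rt, Real.cos_add, Real.sin_add] <;> ring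

theorem rt_zero (x : E3) : rt 0 x = x := by
  ext i; fin_cases i <;> simp [rt]

theorem rt_norm (θ : ℝ) (x : E3) : ‖rt θ x‖ = ‖x‖ := by
  rw [EuclideanSpace.norm_eq, EuclideanSpace.norm_eq]
  congr 1
  simp only [Fin.sum_univ_three, Real.norm_eq_abs, sq_abs]
  have := Real.sin_sq_add_cos_sq θ
  simp [rt]
  linear_combination (x 0 ^ 2 + x 1 ^ 2) * this

noncomputable def rE (θ : ℝ) : E3 ≃ₗᵢ[ℝ] E3 where
  toFun := rt θ
  invFun := rt (-θ)
  map_add' := by intro x y; ext i; fin_cases i <;> simp [rt] <;> ring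
  map_smul' := by intro c x; ext i; fin_cases i <;> simp [rt] <;> ring
  left_inv := by intro x; rw [rt_add, neg_add_cancel, rt_zero]
  right_inv := by intro x; rw [rt_add, add_neg_cancel, rt_zero]
  norm_map' := rt_norm θ

theorem rE_apply (θ : ℝ) (x : E3) : rE θ x = rt θ x := rfl

noncomputable def rL (θ : ℝ) : E3 →L[ℝ] E3 := (rE θ).toContinuousLinearEquiv.toContinuousLinearMap

theorem rL_apply (θ : ℝ) (x : E3) : rL θ x = rt θ x := rfl

theorem rt_cd : ContDiff ℝ ∞ (fun p : ℝ × E3 => rt p.1 p.2) := by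
  rw [contDiff_euclidean]
  have e : ∀ i : Fin 3, ContDiff ℝ ∞ (fun p : ℝ × E3 => p.2 i) := fun i =>
    (EuclideanSpace.proj i : E3 →L[ℝ] ℝ).contDiff.comp contDiff_snd
  have c : ContDiff ℝ ∞ (fun p : ℝ × E3 => Real.cos p.1) := Real.contDiff_cos.comp contDiff_fst
  have s : ContDiff ℝ ∞ (fun p : ℝ × E3 => Real.sin p.1) := Real.contDiff_sin.comp contDiff_fst
  intro i
  fin_cases i
  · have h : (fun p : ℝ × E3 => (rt p.1 p.2) 0)
        = fun p => Real.cos p.1 * p.2 0 - Real.sin p.1 * p.2 1 := by funext p; simp [rt]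
    show ContDiff ℝ ∞ (fun p : ℝ × E3 => (rt p.1 p.2) 0)
    rw [h]
    exact (c.mul (e 0)).sub (s.mul (e 1))
  · have h : (fun p : ℝ × E3 => (rt p.1 p.2) 1)
        = fun p => Real.sin p.1 * p.2 0 + Real.cos p.1 * p.2 1 := by funext p; simp [rt]
    show ContDiff ℝ ∞ (fun p : ℝ × E3 => (rt p.1 p.2) 1)
    rw [h]
    exact (s.mul (e 0)).add (c.mul (e 1))
  · have h : (fun p : ℝ × E3 => (rt p.1 p.2) 2) = fun p => p.2 2 := by funext p; simp [rt]
    show ContDiff ℝ ∞ (fun p : ℝ × E3 => (rt p.1 p.2) 2)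
    rw [h]
    exact e 2

theorem rt_per (x : E3) (θ : ℝ) : rt (θ + 2 * Real.pi) x = rt θ x := by
  simp [rt]

theorem rt_adj (θ : ℝ) (v w : E3) :
    ∑ j, v j * (rt (-θ) w) j = ∑ j, (rt θ v) j * w j := by
  simp only [Fin.sum_univ_three]
  simp [rt]
  ring

attribute [local irreducible] Pool.Agent.Run7.h148.AX.rt

/-- the integrand -/
noncomputable def fI (φ : E3 → E3) (x : E3) (θ : ℝ) : E3 := rt (-θ) (φ (rt θ x))

theorem fI_cd {φ : E3 → E3} (h : ContDiff ℝ ∞ φ) : ContDiff ℝ ∞ (Function.uncurry (fI φ)) := by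
  have h1 : ContDiff ℝ ∞ (fun p : E3 × ℝ => rt p.2 p.1) :=
    rt_cd.comp (contDiff_snd.prodMk contDiff_fst)
  have h2 : ContDiff ℝ ∞ (fun p : E3 × ℝ => φ (rt p.2 p.1)) := h.comp h1
  have hn : ContDiff ℝ ∞ (fun p : E3 × ℝ => -p.2) := contDiff_snd.neg
  have h3 : ContDiff ℝ ∞ (fun p : E3 × ℝ => ((-p.2 : ℝ), φ (rt p.2 p.1))) := hn.prodMk h2
  have h4 : ContDiff ℝ ∞ ((fun p : ℝ × E3 => rt p.1 p.2) ∘
      (fun p : E3 × ℝ => ((-p.2 : ℝ), φ (rt p.2 p.1)))) := ContDiff.comp rt_cd h3
  exact h4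

noncomputable def av (φ : E3 → E3) (x : E3) : E3 :=
  (2 * Real.pi)⁻¹ • ∫ θ in (0 : ℝ)..(2 * Real.pi), fI φ x θ

theorem av_cd {φ : E3 → E3} (h : ContDiff ℝ ∞ φ) : ContDiff ℝ ∞ (av φ) := by
  have h1 := cdi 0 (2 * Real.pi) E3 (fI φ) (fI_cd h)
  have h2 := h1.const_smul (2 * Real.pi)⁻¹
  exact h2

theorem rt_z (θ : ℝ) : rt θ 0 = 0 := (rE θ).map_zero

theorem av_cs {φ : E3 → E3} (h : HasCompactSupport φ) : HasCompactSupport (av φ) := by
  obtain ⟨R, hR⟩ := h.isBounded.subset_closedBall (0 : E3)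
  refine HasCompactSupport.intro (isCompact_closedBall (0 : E3) R) (fun x hx => ?_)
  have : ∀ θ, fI φ x θ = 0 := by
    intro θ
    have h1 : rt θ x ∉ tsupport φ := by
      intro hm
      apply hx
      have := hR hm
      rw [mem_closedBall_zero_iff] at this ⊢
      rwa [rt_norm] at this
    rw [fI, image_eq_zero_of_notMem_tsupport h1, rt_z]
  simp [av, this]

theorem av_axi {φ : E3 → E3} (h : ContDiff ℝ ∞ φ) : Axi (av φ) := by
  intro α x
  have h1 : ∀ θ, fI φ (rt α x) θ = rt α (fI φ x (θ + α)) := by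
    intro θ
    simp only [fI]
    rw [rt_add, rt_add]
    congr 1
    ring
  have hper : Function.Periodic (fI φ x) (2 * Real.pi) := by
    intro θ
    simp only [fI]
    rw [rt_per]
    have : -(θ + 2 * Real.pi) = -θ - 2 * Real.pi := by ring
    rw [this]
    have h3 := rt_per (φ (rt θ x)) (-θ - 2 * Real.pi)
    rw [sub_add_cancel] at h3
    exact h3.symm
  have hc : Continuous (fI φ x) := (fI_cd h).continuous.comp (Continuous.prodMk_right x)
  have e1 : (∫ θ in (0 : ℝ)..(2 * Real.pi), fI φ (rt α x) θ)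
      = ∫ θ in (0 : ℝ)..(2 * Real.pi), rL α (fI φ x (θ + α)) := by
    apply intervalIntegral.integral_congr
    intro θ _
    exact h1 θ
  have e3 : (∫ θ in (0 : ℝ)..(2 * Real.pi), rL α (fI φ x (θ + α)))
      = rL α (∫ θ in (0 : ℝ)..(2 * Real.pi), fI φ x (θ + α)) :=
    ContinuousLinearMap.intervalIntegral_comp_comm (rL α)
      ((hc.comp (continuous_id.add continuous_const)).intervalIntegrable _ _)
  have e2 : (∫ θ in (0 : ℝ)..(2 * Real.pi), fI φ x (θ + α))
      = ∫ θ in (0 : ℝ)..(2 * Real.pi), fI φ x θ := by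
    rw [intervalIntegral.integral_comp_add_right, zero_add, add_comm (2 * Real.pi) α]
    have := hper.intervalIntegral_add_eq α 0
    rwa [zero_add] at this
  rw [av, av, e1, e3, e2, ← rL_apply, map_smul]

theorem rt_mp (θ : ℝ) : MeasurePreserving (rt θ) (volume : Measure E3) volume :=
  (rE θ).measurePreserving

/-- the functional `v ↦ Σ c_j v_j` -/
noncomputable def lf (c : E3) : E3 →L[ℝ] ℝ := ∑ j, (c j) • (EuclideanSpace.proj j : E3 →L[ℝ] ℝ)

theorem lf_apply (c v : E3) : lf c v = ∑ j, c j * v j := by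
  simp [lf]

theorem pair_av {φ : E3 → E3} (h1 : ContDiff ℝ ∞ φ) (h2 : HasCompactSupport φ) {u : E3 → E3}
    (hu : LocallyIntegrable u) (ha : Axi u) : pair u φ = pair u (av φ) := by
  set g : E3 → ℝ := fun x => ∑ j, u x j * φ x j with hg
  have hgi : Integrable g := by
    refine integrable_finsetSum _ fun j _ => ?_
    have c1 : Continuous (fun x => φ x j) :=
      (EuclideanSpace.proj j : E3 →L[ℝ] ℝ).continuous.comp h1.continuous
    have c2 : HasCompactSupport (fun x => φ x j) :=
      h2.comp_left (g := fun v : E3 => v j) (by simp)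
    have c3 := hu.integrable_smul_left_of_hasCompactSupport c1 c2
    have c4 := (EuclideanSpace.proj j : E3 →L[ℝ] ℝ).integrable_comp c3
    refine c4.congr (Filter.Eventually.of_forall fun x => ?_)
    simp [mul_comm]
  have hpt : ∀ x, (∑ j, u x j * (av φ x) j)
      = (2 * Real.pi)⁻¹ * ∫ θ in (0 : ℝ)..(2 * Real.pi), g (rt θ x) := by
    intro x
    have hc : Continuous (fI φ x) := (fI_cd h1).continuous.comp (Continuous.prodMk_right x)
    rw [← lf_apply, av, map_smul, smul_eq_mul]
    congr 1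
    rw [← ContinuousLinearMap.intervalIntegral_comp_comm (lf (u x)) (hc.intervalIntegrable _ _)]
    apply intervalIntegral.integral_congr
    intro θ _
    show lf (u x) (fI φ x θ) = g (rt θ x)
    rw [lf_apply, fI, rt_adj, hg, ← ha θ x]
  have hsk : MeasurePreserving (fun p : ℝ × E3 => (p.1, rt p.1 p.2))
      ((volume.restrict (uIoc 0 (2 * Real.pi))).prod volume)
      ((volume.restrict (uIoc 0 (2 * Real.pi))).prod volume) :=
    (MeasurePreserving.id _).skew_product (g := fun θ x => rt θ x) rt_cd.continuous.measurable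
      (ae_of_all _ fun θ => (rt_mp θ).map_eq)
  have hi2 : Integrable (fun p : ℝ × E3 => g p.2)
      ((volume.restrict (uIoc 0 (2 * Real.pi))).prod volume) := by
    have : IsFiniteMeasure ((volume : Measure ℝ).restrict (uIoc 0 (2 * Real.pi))) :=
      ⟨by rw [Measure.restrict_apply_univ, uIoc]; exact measure_Ioc_lt_top⟩
    exact hgi.comp_snd _
  have hi3 : Integrable (Function.uncurry fun (θ : ℝ) (x : E3) => g (rt θ x))
      ((volume.restrict (uIoc 0 (2 * Real.pi))).prod volume) :=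
    hsk.integrable_comp_of_integrable hi2
  have hsw := intervalIntegral_integral_swap (f := fun (θ : ℝ) (x : E3) => g (rt θ x)) hi3
  have hin : ∀ θ : ℝ, (∫ x, g (rt θ x)) = ∫ x, g x := fun θ =>
    (rt_mp θ).integral_comp' (f := (rE θ).toHomeomorph.toMeasurableEquiv) g
  have hpi : (2 * Real.pi) ≠ 0 := by positivity
  have hR : pair u (av φ) = ∫ x, g x := by
    have e1 : pair u (av φ) = ∫ x, (2 * Real.pi)⁻¹ *
        ∫ θ in (0 : ℝ)..(2 * Real.pi), g (rt θ x) := by
      rw [pair]
      exact integral_congr_ae (Filter.Eventually.of_forall hpt)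
    rw [e1, integral_const_mul, ← hsw]
    simp only [hin]
    rw [intervalIntegral.integral_const, smul_eq_mul, sub_zero, ← mul_assoc,
      inv_mul_cancel₀ hpi, one_mul]
  rw [hR, pair]

theorem t_AVG : S_AVG := fun φ hφ =>
  ⟨av φ, ⟨av_cd hφ.1, av_cs hφ.2⟩, av_axi hφ.1, fun _ hu ha => pair_av hφ.1 hφ.2 hu ha⟩

end Pool.Agent.Run7.h837.AX
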