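import Pool.Agent.Run7.h148.AX.Stm3

/-!
Project AX (helper148), piece MIX: the closure of the quadratic forms is convex.
-/

set_option autoImplicit false

open MeasureTheory Set Filter Topology
open scoped ENNReal ContDiff FourierTransform

namespace Pool.Agent.Run7.h837.AX

open Pool.Agent.Run7.h148.AX

theorem pd_cd {f : E3 → ℝ} (hf : ContDiff ℝ ∞ f) (j : Fin 3) : ContDiff ℝ ∞ (pd j f) := by
  unfold pd
  exact (hf.fderiv_right (m := ∞) (by simp)).clm_apply contDiff_const

theorem comp_cd {Φ : E3 → E3} (hf : ContDiff ℝ ∞ Φ) (j : Fin 3) :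
    ContDiff ℝ ∞ (fun y => Φ y j) :=
  (EuclideanSpace.proj j : E3 →L[ℝ] ℝ).contDiff.comp hf

theorem rt_lin (θ a b : ℝ) (v w : E3) : rt θ (a • v + b • w) = a • rt θ v + b • rt θ w := by
  ext i; fin_cases i <;> simp [rt] <;> ring

noncomputable def cA (n : ℕ) (x : E3) : ℝ := Real.sqrt 2 * Real.cos (NN n * x 2)
noncomputable def cB (n : ℕ) (x : E3) : ℝ := Real.sqrt 2 * Real.sin (NN n * x 2)

theorem cA_cd (n : ℕ) : ContDiff ℝ ∞ (cA n) := by
  have hz : ContDiff ℝ ∞ (fun x : E3 => NN n * x 2) :=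
    contDiff_const.mul (EuclideanSpace.proj (2 : Fin 3) : E3 →L[ℝ] ℝ).contDiff
  exact contDiff_const.mul (Real.contDiff_cos.comp hz)

theorem cB_cd (n : ℕ) : ContDiff ℝ ∞ (cB n) := by
  have hz : ContDiff ℝ ∞ (fun x : E3 => NN n * x 2) :=
    contDiff_const.mul (EuclideanSpace.proj (2 : Fin 3) : E3 →L[ℝ] ℝ).contDiff
  exact contDiff_const.mul (Real.contDiff_sin.comp hz)

noncomputable def CC (A B : E3 → E3) (n : ℕ) (x : E3) : E3 := cA n x • A x + cB n x • B x

theorem CC_cd {A B : E3 → E3} (hA : ContDiff ℝ ∞ A) (hB : ContDiff ℝ ∞ B) (n : ℕ) :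
    ContDiff ℝ ∞ (CC A B n) := by
  have h1 : ContDiff ℝ ∞ (fun x => cA n x • A x) := (cA_cd n).smul hA
  have h2 : ContDiff ℝ ∞ (fun x => cB n x • B x) := (cB_cd n).smul hB
  exact h1.add h2

theorem CC_adm {A B : E3 → E3} (hA : Adm A) (hB : Adm B) (n : ℕ) : Adm (CC A B n) := by
  obtain ⟨hA1, hA2, hA3, hA4⟩ := hA
  obtain ⟨hB1, hB2, hB3, hB4⟩ := hB
  have hK : IsCompact (tsupport A ∪ tsupport B) := IsCompact.union hA2 hB2
  refine ⟨CC_cd hA1 hB1 n, ?_, ?_, ?_⟩
  · refine HasCompactSupport.intro hK (fun x hx => ?_)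
    rw [mem_union, not_or] at hx
    have a : A x = 0 := image_eq_zero_of_notMem_tsupport hx.1
    have b : B x = 0 := image_eq_zero_of_notMem_tsupport hx.2
    simp [CC, a, b]
  · intro x; simp [CC, hA3, hB3]
  · intro θ x
    have h2 : (rt θ x) 2 = x 2 := by simp [rt]
    simp only [CC, cA, cB]
    rw [h2, hA4, hB4, rt_lin]

theorem t_MIX (h : S_OC5) : S_MIX := by
  intro A B hA hB
  refine ⟨CC A B, fun n => CC_adm hA hB n, ?_⟩
  obtain ⟨hA1, hA2, hA3, hA4⟩ := hA
  obtain ⟨hB1, hB2, hB3, hB4⟩ := hB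
  · intro Φ hΦ
    have hP : ∀ j k : Fin 3, ContDiff ℝ ∞ (pd j (fun y => Φ y k)) := fun j k =>
      pd_cd (comp_cd hΦ k) j
    set ρ1 : E3 → ℝ := fun x => ∑ j, ∑ k, (A x j * A x k - B x j * B x k) *
      pd j (fun y => Φ y k) x with hρ1
    set ρ2 : E3 → ℝ := fun x => ∑ j, ∑ k, (A x j * B x k + B x j * A x k) *
      pd j (fun y => Φ y k) x with hρ2
    have hc1 : ContDiff ℝ ∞ ρ1 := by
      rw [hρ1]
      exact ContDiff.sum fun j _ => ContDiff.sum fun k _ =>
        (((comp_cd hA1 j).mul (comp_cd hA1 k)).sub ((comp_cd hB1 j).mul (comp_cd hB1 k))).mul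
          (hP j k)
    have hc2 : ContDiff ℝ ∞ ρ2 := by
      rw [hρ2]
      exact ContDiff.sum fun j _ => ContDiff.sum fun k _ =>
        (((comp_cd hA1 j).mul (comp_cd hB1 k)).add ((comp_cd hB1 j).mul (comp_cd hA1 k))).mul
          (hP j k)
    have hK : IsCompact (tsupport A ∪ tsupport B) := IsCompact.union hA2 hB2
    have hz0 : ∀ x, x ∉ tsupport A ∪ tsupport B → A x = 0 ∧ B x = 0 := by
      intro x hx
      rw [mem_union, not_or] at hx
      exact ⟨image_eq_zero_of_notMem_tsupport hx.1, image_eq_zero_of_notMem_tsupport hx.2⟩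
    have hs1 : HasCompactSupport ρ1 := HasCompactSupport.intro hK (fun x hx => by
      obtain ⟨a, b⟩ := hz0 x hx
      simp [hρ1, a, b])
    have hs2 : HasCompactSupport ρ2 := HasCompactSupport.intro hK (fun x hx => by
      obtain ⟨a, b⟩ := hz0 x hx
      simp [hρ2, a, b])
    have e1 := (h ρ1 0 2 ⟨hc1, hs1⟩ (by norm_num)).1
    have e2 := (h ρ2 0 2 ⟨hc2, hs2⟩ (by norm_num)).2
    set q : E3 → ℝ := fun x => (∑ j, ∑ k, A x j * A x k * pd j (fun y => Φ y k) x)
      + ∑ j, ∑ k, B x j * B x k * pd j (fun y => Φ y k) x with hq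
    have hqA : Continuous (fun x => ∑ j, ∑ k, A x j * A x k * pd j (fun y => Φ y k) x) := by
      exact (ContDiff.sum fun j _ => ContDiff.sum fun k _ =>
        ((comp_cd hA1 j).mul (comp_cd hA1 k)).mul (hP j k)).continuous
    have hqB : Continuous (fun x => ∑ j, ∑ k, B x j * B x k * pd j (fun y => Φ y k) x) := by
      exact (ContDiff.sum fun j _ => ContDiff.sum fun k _ =>
        ((comp_cd hB1 j).mul (comp_cd hB1 k)).mul (hP j k)).continuous
    have iA : Integrable (fun x => ∑ j, ∑ k, A x j * A x k * pd j (fun y => Φ y k) x) :=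
      hqA.integrable_of_hasCompactSupport (HasCompactSupport.intro hK (fun x hx => by
        obtain ⟨a, b⟩ := hz0 x hx
        simp [a]))
    have iB : Integrable (fun x => ∑ j, ∑ k, B x j * B x k * pd j (fun y => Φ y k) x) :=
      hqB.integrable_of_hasCompactSupport (HasCompactSupport.intro hK (fun x hx => by
        obtain ⟨a, b⟩ := hz0 x hx
        simp [b]))
    have hlin : ∀ n : ℕ, Continuous (fun x : E3 => ((2 : ℤ) : ℝ) * NN n * x 2) := fun n =>
      continuous_const.mul (EuclideanSpace.proj (2 : Fin 3) : E3 →L[ℝ] ℝ).continuous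
    have i1 : ∀ n : ℕ, Integrable (fun x => ρ1 x * Real.cos (((2 : ℤ) : ℝ) * NN n * x 2)) := fun n =>
      (hc1.continuous.mul (Real.continuous_cos.comp (hlin n))).integrable_of_hasCompactSupport
        (HasCompactSupport.mul_right hs1)
    have i2 : ∀ n : ℕ, Integrable (fun x => ρ2 x * Real.sin (((2 : ℤ) : ℝ) * NN n * x 2)) := fun n =>
      (hc2.continuous.mul (Real.continuous_sin.comp (hlin n))).integrable_of_hasCompactSupport
        (HasCompactSupport.mul_right hs2)
    have key : ∀ n : ℕ, qf (CC A B n) Φ = (qf A Φ + qf B Φ)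
        + (NN n ^ (0 : ℤ) * (∫ x, ρ1 x * Real.cos (((2 : ℤ) : ℝ) * NN n * x 2))
        + NN n ^ (0 : ℤ) * ∫ x, ρ2 x * Real.sin (((2 : ℤ) : ℝ) * NN n * x 2)) := by
      intro n
      have hadd := integral_add (iA.add iB) ((i1 n).add (i2 n))
      simp only [Pi.add_apply] at hadd
      rw [zpow_zero, one_mul, one_mul, qf, qf, qf, ← integral_add iA iB,
        ← integral_add (i1 n) (i2 n), ← hadd]
      congr 1
      funext x
      have hs : Real.sqrt 2 * Real.sqrt 2 = 2 := Real.mul_self_sqrt (by norm_num)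
      have hcos : Real.cos (((2 : ℤ) : ℝ) * NN n * x 2) = 2 * Real.cos (NN n * x 2) ^ 2 - 1 := by
        rw [← Real.cos_two_mul]; congr 1; push_cast; ring
      have hsin : Real.sin (((2 : ℤ) : ℝ) * NN n * x 2)
          = 2 * Real.sin (NN n * x 2) * Real.cos (NN n * x 2) := by
        rw [← Real.sin_two_mul]; congr 1; push_cast; ring
      have hcs : Real.sin (NN n * x 2) ^ 2 = 1 - Real.cos (NN n * x 2) ^ 2 := by
        have := Real.sin_sq_add_cos_sq (NN n * x 2); linarith
      rw [hcos, hsin]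
      simp only [hρ1, hρ2, Pi.add_apply, Finset.sum_mul]
      simp only [← Finset.sum_add_distrib]
      refine Finset.sum_congr rfl fun j _ => Finset.sum_congr rfl fun k _ => ?_
      simp only [CC, cA, cB, PiLp.add_apply, PiLp.smul_apply, smul_eq_mul]
      generalize pd j (fun y => Φ y k) x = P
      generalize A x j = a
      generalize A x k = a'
      generalize B x j = b
      generalize B x k = b'
      generalize Real.cos (NN n * x 2) = c at *
      generalize Real.sin (NN n * x 2) = s at *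
      have : (Real.sqrt 2 * c * a + Real.sqrt 2 * s * b) *
          (Real.sqrt 2 * c * a' + Real.sqrt 2 * s * b') * P
          = (Real.sqrt 2 * Real.sqrt 2) * ((c * a + s * b) * (c * a' + s * b')) * P := by ring
      rw [this, hs]
      have h3 : 2 * ((c * a + s * b) * (c * a' + s * b')) * P
        = (2 * c ^ 2 * a * a' + 2 * s ^ 2 * b * b' + 2 * s * c * (a * b' + b * a')) * P := by ring
      rw [h3, hcs]
      ring
    have hlim : Tendsto (fun n : ℕ => (qf A Φ + qf B Φ)
        + (NN n ^ (0 : ℤ) * (∫ x, ρ1 x * Real.cos (((2 : ℤ) : ℝ) * NN n * x 2))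
        + NN n ^ (0 : ℤ) * ∫ x, ρ2 x * Real.sin (((2 : ℤ) : ℝ) * NN n * x 2))) atTop
        (𝓝 (qf A Φ + qf B Φ)) := by
      have := (tendsto_const_nhds (x := qf A Φ + qf B Φ) (f := (atTop : Filter ℕ))).add (e1.add e2)
      simpa using this
    exact hlim.congr fun n => (key n).symm

end Pool.Agent.Run7.h837.AX
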